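import Pool.Agent.MP_c434f6_gt.G4.Main

/-! Two complete embedded one-ended minimal surfaces of genus four that are not similar. -/

open Pool.Agent.MP_c434f6_gt.Stmt

theorem Pool.Agent.Results.MP_c434f6_gt.NonUnique.result :
    ∃ M₁ M₂ : Set (EuclideanSpace ℝ (Fin 3)), OneEnded 4 M₁ ∧ OneEnded 4 M₂ ∧ ¬ Similar M₁ M₂ :=
  main
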