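import Pool.Agent.MP_c434f6_gt.Arc
import Pool.Agent.MP_c434f6_gt.Big
import Pool.Agent.MP_c434f6_gt.Mg.Four
import Pool.Agent.MP_c434f6_gt.Mg.Sym

/-! Uniqueness of the genus-one helicoid with a half-turn symmetry about a vertical line. -/

open Complex Filter Topology Set Pool.Agent.MP_c434f6_gt
open scoped Real

namespace Pool.Agent.Results.MP_c434f6_gt.SymGenusOne

lemma uniq {T b a e T' b' a' e' : ℝ} {f P f' P' : ℂ → ℂ} (h : Surf T b a e f P)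
    (h' : Surf T' b' a' e' f' P') : T = T' ∧ ∀ z ∉ Lat (om T), P z = P' z := by
  obtain ⟨rfl, rfl⟩ := h.ae
  obtain ⟨rfl, rfl⟩ := h'.ae
  have hT := h.pos
  have hT' := h'.pos
  have k {T} (h0 : 0 < T) (h1 : T < 3.5) : 1.4 ≤ π ^ 2 / (2 * T) :=
    (le_div_iff₀ (by positivity)).2 (by nlinarith [Real.pi_gt_d2])
  have := le_antisymm (not_lt.1 (h.sol.uniq h'.sol (k hT h.big)))
    (not_lt.1 (h'.sol.uniq h.sol (k hT' h'.big)))
  obtain rfl : T = T' := by field_simp at this; exact this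
  obtain rfl : b = b' := (Lp_mono hT).injOn ⟨h.hb, h.hT.le⟩ ⟨h'.hb, h'.hT.le⟩
    (by simp only [h.zero, h'.zero])
  have n := nmP hT (show T < 2 * T by linarith)
  have l : Lp (om T) T ≠ 0 := fun e => by simpa [e] using h.LpT
  have e (z) (hz : z ∉ Lat (om T)) : f z = f' z := by
    have := ode_eq (open_U (hom hT)) conn_U h.hol h'.hol n (h'.fT ▸ l) (by
      filter_upwards [ev_n0 (hom hT) T, ev_nm (hom hT) T b] with z h1 h2
      rw [h.ode z h1 h2, h'.ode z h1 h2]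
      ring) hz
    rw [h.fT, h'.fT, mul_comm] at this
    exact mul_left_cancel₀ l this
  exact ⟨rfl, fun z hz => (open_U (hom hT)).eqOn_of_fderiv_eq (𝕜 := ℝ) conn_U
    (fun z hz => (h.der z hz).differentiableAt.differentiableWithinAt)
    (fun z hz => (h'.der z hz).differentiableAt.differentiableWithinAt)
    (fun z hz => by rw [(h.der z hz).fderiv, (h'.der z hz).fderiv, e z hz,
      e _ (mt neg_mem_iff.1 hz)]) n (h.P_T.trans h'.P_T.symm) hz⟩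

lemma iso {u : ℂ} {s : ℝ} (hu : ‖u‖ = 1) (hs : |s| = 1) :
    ∃ A : EuclideanSpace ℝ (Fin 3) ≃ₗᵢ[ℝ] EuclideanSpace ℝ (Fin 3),
      ∀ x, A x 0 + A x 1 * I = u * (x 0 + x 1 * I) ∧ A x 2 = s * x 2 := by
  have h1 : u.re ^ 2 + u.im ^ 2 = 1 := by rw [← one_pow 2, ← hu, Complex.sq_norm, normSq_apply]; ring
  have h2 : s ^ 2 = 1 := by rw [← sq_abs, hs, one_pow]
  refine ⟨LinearIsometry.toLinearIsometryEquiv ⟨Matrix.toEuclideanLin
    !![u.re, -u.im, 0; u.im, u.re, 0; 0, 0, s], fun x => ?_⟩ rfl, fun x => ?_⟩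
  · rw [← sq_eq_sq₀ (norm_nonneg _) (norm_nonneg _)]
    simp [EuclideanSpace.real_norm_sq_eq, Fin.sum_univ_three, Matrix.toLpLin_apply,
      Matrix.vecHead, Matrix.vecTail]
    linear_combination (x 0 ^ 2 + x 1 ^ 2) * h1 + x 2 ^ 2 * h2
  · simp [Matrix.toLpLin_apply, Complex.ext_iff, Matrix.vecHead, Matrix.vecTail]
    constructor <;> ring

/-- Any two embedded genus-one helicoids of finite type, each invariant under the rotation by `π`
about a vertical line, differ by a homothety and an isometry. -/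
theorem result (M₁ M₂ : Set (EuclideanSpace ℝ (Fin 3))) (h₁ : SymHel M₁) (h₂ : SymHel M₂) :
    ∃ (l : ℝ) (A : EuclideanSpace ℝ (Fin 3) ≃ₗᵢ[ℝ] EuclideanSpace ℝ (Fin 3))
      (b : EuclideanSpace ℝ (Fin 3)), 0 < l ∧ (fun x => l • A x + b) '' M₁ = M₂ := by
  obtain ⟨T, hT, X, φ, c₁, c₂, h, rfl, hs⟩ := h₁.norm
  obtain ⟨T', hT', X', φ', c₁', c₂', h', rfl, hs'⟩ := h₂.norm
  obtain ⟨b, a, e, f, P, S, c, κ, d, κ0, n, H⟩ := h.nf hT hs
  obtain ⟨b', a', e', f', P', S', c', κ', d', κ0', n', H'⟩ := h'.nf hT' hs'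
  obtain ⟨rfl, E⟩ := uniq S S'
  have l0 : 0 < |κ' / κ| := abs_pos.2 (div_ne_zero κ0' κ0)
  have l1 := ofReal_ne_zero.2 l0.ne'
  have c0 : c ≠ 0 := norm_pos_iff.1 (n ▸ abs_pos.2 κ0)
  obtain ⟨A, hA⟩ := iso (u := c' / c / |κ' / κ|) (s := κ' / κ / |κ' / κ|) (by
    rw [norm_div, norm_div, n, n', ← abs_div, norm_real, Real.norm_eq_abs, abs_abs, div_self l0.ne'])
    (by rw [abs_div, abs_abs, div_self l0.ne'])
  generalize |κ' / κ| = l at *
  have k (p z) (hz : z ∉ Lat (om T)) :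
      (p 0 + p 1 * I = c₁ + c₂ * I - c * P z ∧ p 2 = d - κ * (La (om T) z).im) ↔
      ((l • A (p - !₂[c₁, c₂, d]) + !₂[c₁', c₂', d']) 0 + (l • A (p - !₂[c₁, c₂, d]) +
        !₂[c₁', c₂', d']) 1 * I = c₁' + c₂' * I - c' * P' z ∧
        (l • A (p - !₂[c₁, c₂, d]) + !₂[c₁', c₂', d']) 2 = d' - κ' * (La (om T) z).im) := by
    obtain ⟨h1, h2⟩ := hA (p - !₂[c₁, c₂, d])
    generalize A (p - !₂[c₁, c₂, d]) = q at *
    have c1 : c' ≠ 0 := norm_pos_iff.1 (n' ▸ abs_pos.2 κ0')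
    simp [← E z hz] at h1 h2 ⊢
    field_simp at h1 h2
    exact and_congr ⟨fun e => mul_left_cancel₀ c0 (by linear_combination h1 + c' * e),
      fun e => mul_left_cancel₀ c1 (by linear_combination c * e - h1)⟩
      ⟨fun e => mul_left_cancel₀ κ0 (by linear_combination h2 + κ' * e),
        fun e => mul_left_cancel₀ κ0' (by linear_combination κ * e - h2)⟩
  refine ⟨l, A, !₂[c₁', c₂', d'] - l • A !₂[c₁, c₂, d], l0, ?_⟩
  simp only [H, H', fun x => show l • A x + (!₂[c₁', c₂', d'] - l • A !₂[c₁, c₂, d]) =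
    l • A (x - !₂[c₁, c₂, d]) + !₂[c₁', c₂', d'] by rw [map_sub, smul_sub]; abel]
  refine Set.ext fun q => ⟨?_, fun ⟨z, hz, e⟩ => ?_⟩
  · rintro ⟨p, ⟨z, hz, e⟩, rfl⟩
    exact ⟨z, hz, (k p z hz).1 e⟩
  · have r : l • A (A.symm (l⁻¹ • (q - !₂[c₁', c₂', d'])) + !₂[c₁, c₂, d] - !₂[c₁, c₂, d]) +
      !₂[c₁', c₂', d'] = q := by simp [smul_inv_smul₀ l0.ne', -map_smul]
    exact ⟨_, ⟨z, hz, (k _ z hz).2 (r.symm ▸ e)⟩, r⟩

end Pool.Agent.Results.MP_c434f6_gt.SymGenusOne
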